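import Pool.Agent.U845.XM.Stm
import Pool.Agent.U115.GE.Loc

/-!
# XM-B: the prime two
-/

set_option autoImplicit false

namespace Pool.Agent.U301.XM

open Pool.Agent.U845.XM
open Pool.Agent.U115.GE (SelSet)
open Pool.Agent.U115.TP (LSol)

/-- a local solution at two gives an integral one modulo `1024` -/
theorem int_sol [Fact (Nat.Prime 2)] {A B d : ℤ} (h : LSol A B d 2) :
    ∃ w e N k : ℤ, ¬ (w % 2 = 0 ∧ e % 2 = 0) ∧
      d * N ^ 2 = d ^ 2 * w ^ 4 + A * d * w ^ 2 * e ^ 2 + B * e ^ 4 + 1024 * k := by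
  obtain ⟨w, e, N, hwe, h⟩ := h
  let φ : ℤ_[2] →+* ZMod (2 ^ 10) := PadicInt.toZModPow 10
  have key : ∀ x : ℤ_[2], ∃ z : ℤ, (z : ZMod (2 ^ 10)) = φ x ∧ (z % 2 = 0 → (2 : ℤ_[2]) ∣ x) := by
    intro x
    refine ⟨((φ x).val : ℤ), ?_, ?_⟩
    · rw [Int.cast_natCast, ZMod.natCast_val, ZMod.cast_id', id]
    · intro hz
      have h1 : x - ((((φ x).val : ℤ)) : ℤ_[2]) ∈ RingHom.ker (PadicInt.toZModPow 10 : ℤ_[2] →+* ZMod (2 ^ 10)) := by
        rw [RingHom.mem_ker, map_sub, map_intCast, Int.cast_natCast, ZMod.natCast_val, ZMod.cast_id', id]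
        exact sub_self _
      rw [PadicInt.ker_toZModPow, Ideal.mem_span_singleton] at h1
      have h2 : (2 : ℤ_[2]) ∣ x - ((((φ x).val : ℤ)) : ℤ_[2]) :=
        (dvd_pow_self (((2 : ℕ) : ℤ_[2])) (by norm_num : (10 : ℕ) ≠ 0)).trans h1
      have h3 : (2 : ℤ_[2]) ∣ ((((φ x).val : ℤ)) : ℤ_[2]) := by
        obtain ⟨c, hc⟩ := Int.dvd_of_emod_eq_zero hz
        rw [hc]
        exact ⟨(c : ℤ_[2]), by push_cast; ring⟩
      have h4 := dvd_add h2 h3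
      rwa [sub_add_cancel] at h4
  obtain ⟨w', hw1, hw2⟩ := key w
  obtain ⟨e', he1, he2⟩ := key e
  obtain ⟨N', hN1, -⟩ := key N
  have h3 := congrArg φ h
  simp only [map_mul, map_add, map_pow, map_intCast] at h3
  rw [← hw1, ← he1, ← hN1] at h3
  have h4 : ((d * N' ^ 2 - (d ^ 2 * w' ^ 4 + A * d * w' ^ 2 * e' ^ 2 + B * e' ^ 4) : ℤ) :
      ZMod (2 ^ 10)) = 0 := by
    push_cast
    rw [sub_eq_zero]
    exact h3
  rw [ZMod.intCast_zmod_eq_zero_iff_dvd] at h4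
  obtain ⟨k, hk⟩ := h4
  refine ⟨w', e', N', k, fun hh => hwe ⟨by exact_mod_cast hw2 hh.1, by exact_mod_cast he2 hh.2⟩, ?_⟩
  push_cast at hk
  linarith

theorem sq8 {x : ℤ} (h : x % 2 = 1) : ∃ y, x ^ 2 = 8 * y + 1 := by
  obtain ⟨z, hz⟩ : ∃ z, x = 2 * z + 1 := ⟨x / 2, by omega⟩
  obtain ⟨y, hy⟩ : ∃ y, z * (z + 1) = 2 * y := by
    obtain ⟨y, hy⟩ := Int.even_mul_succ_self z
    exact ⟨y, by rw [hy]; ring⟩
  refine ⟨y, ?_⟩
  rw [hz]
  linear_combination 4 * hy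

/-- the class modulo eight -/
theorem cl8 {d N Q r : ℤ} (hr : r % 2 = 1) (h : d * N ^ 2 = 8 * Q + r) : (d - r) % 8 = 0 := by
  rcases Int.emod_two_eq_zero_or_one N with hN | hN
  · exfalso
    obtain ⟨z, hz⟩ : ∃ z, N = 2 * z := ⟨N / 2, by omega⟩
    have h1 : 4 * (d * z ^ 2) = 8 * Q + r := by rw [← h, hz]; ring
    omega
  · obtain ⟨y, hy⟩ := sq8 hN
    have h1 : 8 * (d * y) + d = 8 * Q + r := by rw [← h, hy]; ring
    omega

theorem even_of {d N Q : ℤ} (hd : d % 2 = 1) (h : d * N ^ 2 = 2 * Q) : ∃ z, N = 2 * z := by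
  rcases Int.emod_two_eq_zero_or_one N with hN | hN
  · exact ⟨N / 2, by omega⟩
  · exfalso
    obtain ⟨y, hy⟩ := sq8 hN
    have h1 : 8 * (d * y) + d = 2 * Q := by rw [← h, hy]; ring
    omega

theorem not_two {d N Q : ℤ} (hd : d % 2 = 1) (h : d * N ^ 2 = 4 * Q + 2) : False := by
  obtain ⟨z, hz⟩ := even_of (Q := 2 * Q + 1) hd (by rw [h]; ring)
  have h1 : 4 * (d * z ^ 2) = 4 * Q + 2 := by rw [← h, hz]; ring
  omega

/-- part one, in integers -/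
theorem part1 {n d1 w e N k : ℤ} (hn : n % 4 = 3) (hd : d1 % 2 = 1) (hwe : ¬ (w % 2 = 0 ∧ e % 2 = 0))
    (h : d1 * N ^ 2 = 2 * d1 ^ 2 * w ^ 4 - 41 * n * d1 * w ^ 2 * e ^ 2 + 200 * n ^ 2 * e ^ 4 +
      512 * k) : False := by
  obtain ⟨dd, hdd⟩ := sq8 hd
  obtain ⟨nn, hnn⟩ := sq8 (show n % 2 = 1 by omega)
  obtain ⟨m, hm⟩ : ∃ m, n = 4 * m + 3 := ⟨n / 4, by omega⟩
  rcases Int.emod_two_eq_zero_or_one w with hw | hw
  · have he : e % 2 = 1 := by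
      rcases Int.emod_two_eq_zero_or_one e with he | he
      · exact absurd ⟨hw, he⟩ hwe
      · exact he
    obtain ⟨w1, hw1⟩ : ∃ z, w = 2 * z := ⟨w / 2, by omega⟩
    obtain ⟨ee, hee⟩ := sq8 he
    obtain ⟨N1, hN1⟩ := even_of (Q := 16 * d1 ^ 2 * w1 ^ 4 - 82 * n * d1 * w1 ^ 2 * e ^ 2 +
      100 * n ^ 2 * e ^ 4 + 256 * k) hd (by rw [h, hw1]; ring)
    have h1 : d1 * N1 ^ 2 = 8 * d1 ^ 2 * w1 ^ 4 - 41 * n * d1 * w1 ^ 2 * e ^ 2 + 50 * n ^ 2 * e ^ 4 +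
        128 * k := by
      have h2 : 4 * (d1 * N1 ^ 2) = 4 * (8 * d1 ^ 2 * w1 ^ 4 - 41 * n * d1 * w1 ^ 2 * e ^ 2 +
          50 * n ^ 2 * e ^ 4 + 128 * k) := by
        have h3 := h
        rw [hN1, hw1] at h3
        linear_combination h3
      linarith
    rcases Int.emod_two_eq_zero_or_one w1 with hv | hv
    · obtain ⟨w2, hw2⟩ : ∃ z, w1 = 2 * z := ⟨w1 / 2, by omega⟩
      refine not_two (N := N1) (Q := 32 * d1 ^ 2 * w2 ^ 4 - 41 * n * d1 * w2 ^ 2 * e ^ 2 +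
        32 * k + (100 * (nn * (8 * ee + 1) ^ 2 + 8 * ee ^ 2 + 2 * ee) + 12)) hd ?_
      rw [h1, hw2]
      have h4 : 50 * n ^ 2 * e ^ 4 = 50 * ((8 * nn + 1) * (8 * ee + 1) ^ 2) := by
        rw [← hnn, ← hee]; ring
      rw [h4]
      ring
    · obtain ⟨vv, hvv⟩ := sq8 hv
      -- d1 N1² = - n d1 + 2 mod 8
      have h3 : d1 * N1 ^ 2 = 8 * (d1 ^ 2 * w1 ^ 4 + 16 * k) - 41 * n * d1 * (8 * vv + 1) * (8 * ee + 1) +
          50 * (8 * nn + 1) * (8 * ee + 1) ^ 2 := by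
        rw [← hnn, ← hee, ← hvv, h1]; ring
      have h4 : d1 * N1 ^ 2 = 8 * (d1 ^ 2 * w1 ^ 4 + 16 * k - 41 * n * d1 * (8 * vv * ee + vv + ee) +
          50 * (nn * (8 * ee + 1) ^ 2 + 8 * ee ^ 2 + 2 * ee) - 5 * n * d1 + 6) + (2 - n * d1) := by
        rw [h3]; ring
      have h5 := cl8 (r := 2 - n * d1) (by
        obtain ⟨c, hc⟩ : ∃ c, d1 = 2 * c + 1 := ⟨d1 / 2, by omega⟩
        have : n * d1 = 2 * (n * c) + n := by rw [hc]; ring
        omega) h4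
      have h6 : n * d1 = 4 * (m * d1) + 3 * d1 := by rw [hm]; ring
      omega
  · obtain ⟨ww, hww⟩ := sq8 hw
    rcases Int.emod_two_eq_zero_or_one e with he | he
    · obtain ⟨e1, he1⟩ : ∃ z, e = 2 * z := ⟨e / 2, by omega⟩
      refine not_two (N := N) (Q := -41 * n * d1 * w ^ 2 * e1 ^ 2 + 800 * n ^ 2 * e1 ^ 4 + 128 * k +
        4 * (dd * (8 * ww + 1) ^ 2 + 8 * ww ^ 2 + 2 * ww)) hd ?_
      have h3 : 2 * d1 ^ 2 * w ^ 4 = 16 * (dd * (8 * ww + 1) ^ 2 + 8 * ww ^ 2 + 2 * ww) + 2 := by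
        have : 2 * d1 ^ 2 * w ^ 4 = 2 * (8 * dd + 1) * (8 * ww + 1) ^ 2 := by
          rw [← hdd, ← hww]; ring
        rw [this]; ring
      rw [h, h3, he1]; ring
    · obtain ⟨ee, hee⟩ := sq8 he
      have h3 : d1 * N ^ 2 = 2 * (8 * dd + 1) * (8 * ww + 1) ^ 2 -
          41 * n * d1 * (8 * ww + 1) * (8 * ee + 1) + 200 * n ^ 2 * e ^ 4 + 512 * k := by
        rw [← hdd, ← hee, ← hww, h]; ring
      have h4 : d1 * N ^ 2 = 8 * (2 * (dd * (8 * ww + 1) ^ 2 + 8 * ww ^ 2 + 2 * ww) -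
          41 * n * d1 * (8 * ww * ee + ww + ee) - 5 * n * d1 + 25 * n ^ 2 * e ^ 4 + 64 * k) +
          (2 - n * d1) := by
        rw [h3]; ring
      have h5 := cl8 (r := 2 - n * d1) (by
        obtain ⟨c, hc⟩ : ∃ c, d1 = 2 * c + 1 := ⟨d1 / 2, by omega⟩
        have : n * d1 = 2 * (n * c) + n := by rw [hc]; ring
        omega) h4
      have h6 : n * d1 = 4 * (m * d1) + 3 * d1 := by rw [hm]; ring
      omega

/-- `u (u + 8 t)` with `u` odd is one modulo eight -/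
theorem uv8 {d N u t k : ℤ} (hu : u % 2 = 1) (h : d * N ^ 2 = u * (u + 8 * t) + 8 * k) :
    d % 8 = 1 := by
  obtain ⟨y, hy⟩ := sq8 hu
  have h1 : d * N ^ 2 = 8 * (y + u * t + k) + 1 := by rw [h]; linear_combination hy
  have := cl8 (r := 1) (by norm_num) h1
  omega

/-- part two, `n` odd, in integers -/
theorem part2odd {n d w e N k : ℤ} (hn : n % 2 = 1) (hd : d % 2 = 1)
    (hwe : ¬ (w % 2 = 0 ∧ e % 2 = 0))
    (h : d * N ^ 2 = (d * w ^ 2 + n * e ^ 2) * (d * w ^ 2 + n * e ^ 2 + 80 * n * e ^ 2) + 1024 * k) :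
    d % 8 = 1 ∨ (d + n) % 8 = 0 ∨ (n % 8 = 7 ∧ d % 8 = 5) := by
  set u := d * w ^ 2 + n * e ^ 2 with hu
  by_cases hod : u % 2 = 1
  · exact Or.inl (uv8 (t := 10 * n * e ^ 2) (k := 128 * k) hod (by rw [h]; ring))
  have hw : w % 2 = 1 := by
    by_contra hw
    apply hod
    obtain ⟨w1, hw1⟩ : ∃ z, w = 2 * z := ⟨w / 2, by omega⟩
    obtain ⟨ee, hee⟩ := sq8 (show e % 2 = 1 by omega)
    have : u = 2 * (2 * d * w1 ^ 2 + 4 * n * ee) + n := by
      rw [hu, hee, hw1]; ring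
    omega
  have he : e % 2 = 1 := by
    by_contra he
    apply hod
    obtain ⟨e1, he1⟩ : ∃ z, e = 2 * z := ⟨e / 2, by omega⟩
    obtain ⟨ww, hww⟩ := sq8 hw
    have : u = 2 * (2 * n * e1 ^ 2 + 4 * d * ww) + d := by
      rw [hu, hww, he1]; ring
    omega
  obtain ⟨ww, hww⟩ := sq8 hw
  obtain ⟨ee, hee⟩ := sq8 he
  have hudn : u = 8 * (d * ww + n * ee) + (d + n) := by rw [hu, hww, hee]; ring
  by_cases h8 : u % 8 = 0
  · right; left
    omega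
  by_cases h4 : u % 4 = 0
  · -- u = 4 x, x odd
    obtain ⟨x, hx⟩ : ∃ x, u = 4 * x := ⟨u / 4, by omega⟩
    have hxo : x % 2 = 1 := by omega
    obtain ⟨N1, hN1⟩ := even_of (Q := 8 * (x * (x + 20 * n * e ^ 2)) + 512 * k) hd (by
      rw [h, hx]; ring)
    have h1 : d * N1 ^ 2 = 2 * (2 * (x * (x + 20 * n * e ^ 2)) + 128 * k) := by
      have h2 : 4 * (d * N1 ^ 2) = 4 * (2 * (2 * (x * (x + 20 * n * e ^ 2)) + 128 * k)) := by
        have h3 := h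
        rw [hN1, hx] at h3
        linear_combination h3
      linarith
    obtain ⟨N2, hN2⟩ := even_of hd h1
    obtain ⟨xx, hxx⟩ := sq8 hxo
    obtain ⟨y, hy⟩ : ∃ y, x * n = 2 * y + 1 := by
      obtain ⟨a, ha⟩ : ∃ a, x = 2 * a + 1 := ⟨x / 2, by omega⟩
      obtain ⟨b, hb⟩ : ∃ b, n = 2 * b + 1 := ⟨n / 2, by omega⟩
      exact ⟨2 * a * b + a + b, by rw [ha, hb]; ring⟩
    have h3 : d * N2 ^ 2 = 8 * (xx + 5 * y + 20 * (x * n) * ee + 8 * k + 2) + 5 := by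
      have h4 : 4 * (d * N2 ^ 2) = 4 * (x ^ 2 + 20 * (x * n) * e ^ 2 + 64 * k) := by
        rw [hN2] at h1
        linear_combination h1
      have h5 : d * N2 ^ 2 = x ^ 2 + 20 * (x * n) * e ^ 2 + 64 * k := by linarith
      rw [h5, hxx, hee]
      linear_combination 20 * hy
    have h6 := cl8 (r := 5) (by norm_num) h3
    right; right
    omega
  · obtain ⟨x, hx⟩ : ∃ x, u = 2 * x := ⟨u / 2, by omega⟩
    have hxo : x % 2 = 1 := by omega
    obtain ⟨N1, hN1⟩ := even_of (Q := 2 * (x * (x + 40 * n * e ^ 2)) + 512 * k) hd (by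
      rw [h, hx]; ring)
    left
    refine uv8 (N := N1) (u := x) (t := 5 * n * e ^ 2) (k := 32 * k) hxo ?_
    have h2 : 4 * (d * N1 ^ 2) = 4 * (x * (x + 8 * (5 * n * e ^ 2)) + 8 * (32 * k)) := by
      have h3 := h
      rw [hN1, hx] at h3
      linear_combination h3
    linarith

/-- part two, `n = 2 m`, `d` odd -/
theorem part2even {m d w e N k : ℤ} (hn : m % 2 = 1) (hd : d % 2 = 1)
    (hwe : ¬ (w % 2 = 0 ∧ e % 2 = 0))
    (h : d * N ^ 2 = (d * w ^ 2 + 2 * m * e ^ 2) * (d * w ^ 2 + 2 * m * e ^ 2 + 160 * m * e ^ 2) +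
      1024 * k) : d % 8 = 1 := by
  rcases Int.emod_two_eq_zero_or_one w with hw | hw
  · obtain ⟨w1, hw1⟩ : ∃ z, w = 2 * z := ⟨w / 2, by omega⟩
    have he : e % 2 = 1 := by omega
    obtain ⟨ee, hee⟩ := sq8 he
    set x := 2 * d * w1 ^ 2 + m * e ^ 2 with hx
    have hxo : x % 2 = 1 := by
      have : x = 2 * (d * w1 ^ 2 + 4 * m * ee) + m := by rw [hx, hee]; ring
      omega
    obtain ⟨N1, hN1⟩ := even_of (Q := 2 * (x * (x + 80 * m * e ^ 2)) + 512 * k) hd (by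
      rw [h, hw1, hx]; ring)
    refine uv8 (N := N1) (u := x) (t := 10 * m * e ^ 2) (k := 32 * k) hxo ?_
    have h2 : 4 * (d * N1 ^ 2) = 4 * (x * (x + 8 * (10 * m * e ^ 2)) + 8 * (32 * k)) := by
      have h3 := h
      rw [hN1, hw1] at h3
      rw [hx]
      linear_combination h3
    linarith
  · obtain ⟨ww, hww⟩ := sq8 hw
    refine uv8 (N := N) (u := d * w ^ 2 + 2 * m * e ^ 2) (t := 20 * m * e ^ 2) (k := 128 * k) ?_ (by
      rw [h]; ring)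
    have : d * w ^ 2 + 2 * m * e ^ 2 = 2 * (4 * d * ww + m * e ^ 2) + d := by rw [hww]; ring
    omega

/-- part two, `n = 2 m`, `d = 2 c` -/
theorem part2two {m c w e N k : ℤ} (hn : m % 2 = 1) (hd : c % 2 = 1)
    (hwe : ¬ (w % 2 = 0 ∧ e % 2 = 0))
    (h : c * N ^ 2 = 2 * ((c * w ^ 2 + m * e ^ 2) * (c * w ^ 2 + m * e ^ 2 + 80 * m * e ^ 2)) +
      512 * k) : (c + m) % 8 = 0 := by
  set u := c * w ^ 2 + m * e ^ 2 with hu
  obtain ⟨N1, hN1⟩ := even_of (Q := u * (u + 80 * m * e ^ 2) + 256 * k) hd (by rw [h]; ring)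
  have h1 : 2 * (c * N1 ^ 2) = u * (u + 80 * m * e ^ 2) + 256 * k := by
    have h2 : 2 * (2 * (c * N1 ^ 2)) = 2 * (u * (u + 80 * m * e ^ 2) + 256 * k) := by
      have h3 := h
      rw [hN1] at h3
      linear_combination h3
    linarith
  by_cases hod : u % 2 = 1
  · exfalso
    obtain ⟨y, hy⟩ := sq8 hod
    have : 2 * (c * N1 ^ 2) = 2 * (4 * y + 40 * u * m * e ^ 2 + 128 * k) + 1 := by
      rw [h1]; linear_combination hy
    omega
  have hw : w % 2 = 1 := by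
    by_contra hw
    apply hod
    obtain ⟨w1, hw1⟩ : ∃ z, w = 2 * z := ⟨w / 2, by omega⟩
    obtain ⟨ee, hee⟩ := sq8 (show e % 2 = 1 by omega)
    have : u = 2 * (2 * c * w1 ^ 2 + 4 * m * ee) + m := by
      rw [hu, hee, hw1]; ring
    omega
  have he : e % 2 = 1 := by
    by_contra he
    apply hod
    obtain ⟨e1, he1⟩ : ∃ z, e = 2 * z := ⟨e / 2, by omega⟩
    obtain ⟨ww, hww⟩ := sq8 hw
    have : u = 2 * (2 * m * e1 ^ 2 + 4 * c * ww) + c := by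
      rw [hu, hww, he1]; ring
    omega
  obtain ⟨ww, hww⟩ := sq8 hw
  obtain ⟨ee, hee⟩ := sq8 he
  have hucm : u = 8 * (c * ww + m * ee) + (c + m) := by rw [hu, hww, hee]; ring
  by_cases h8 : u % 8 = 0
  · omega
  exfalso
  by_cases h4 : u % 4 = 0
  · obtain ⟨x, hx⟩ : ∃ x, u = 4 * x := ⟨u / 4, by omega⟩
    have hxo : x % 2 = 1 := by omega
    obtain ⟨y, hy⟩ := sq8 hxo
    have h3 : c * N1 ^ 2 = 2 * (4 * (x * (x + 20 * m * e ^ 2)) + 64 * k) := by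
      rw [hx] at h1
      have : 2 * (c * N1 ^ 2) = 2 * (2 * (4 * (x * (x + 20 * m * e ^ 2)) + 64 * k)) := by
        rw [h1]; ring
      linarith
    obtain ⟨N2, hN2⟩ := even_of hd h3
    refine not_two (N := N2) (Q := 4 * y + 10 * x * m * e ^ 2 + 8 * k) hd ?_
    have : 4 * (c * N2 ^ 2) = 4 * (4 * (4 * y + 10 * x * m * e ^ 2 + 8 * k) + 2) := by
      rw [hN2] at h3
      linear_combination h3 + 8 * hy
    linarith
  · obtain ⟨x, hx⟩ : ∃ x, u = 2 * x := ⟨u / 2, by omega⟩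
    have hxo : x % 2 = 1 := by omega
    obtain ⟨y, hy⟩ := sq8 hxo
    refine not_two (N := N1) (Q := 4 * y + 20 * x * m * e ^ 2 + 32 * k) hd ?_
    have : 2 * (c * N1 ^ 2) = 2 * (4 * (4 * y + 20 * x * m * e ^ 2 + 32 * k) + 2) := by
      rw [h1, hx]
      linear_combination 4 * hy
    linarith

theorem t_B : S_B := by
  intro n hn
  have : Fact (Nat.Prime 2) := ⟨Nat.prime_two⟩
  have hodd : ∀ d : ℤ, Squarefree d → ∀ c : ℤ, d = 2 * c → c % 2 = 1 := by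
    intro d hd c hc
    by_contra h
    obtain ⟨z, hz⟩ : ∃ z, c = 2 * z := ⟨c / 2, by omega⟩
    have h1 := hd 2 ⟨z, by rw [hc, hz]; ring⟩
    rw [Int.isUnit_iff] at h1
    omega
  refine ⟨fun d hd h4 h2 => ?_, fun d hd => ?_⟩
  · obtain ⟨c, hc⟩ := h2
    have hc1 := hodd d hd.1 c hc
    obtain ⟨w, e, N, k, hwe, h⟩ := int_sol (Pool.Agent.U115.GE.lsol_of_qs hd.1 (hd.2.2 2))
    refine part1 (n := n) (d1 := c) (w := w) (e := e) (N := N) (k := k) (by omega) hc1 hwe ?_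
    have h3 : 2 * (c * N ^ 2) = 2 * (2 * c ^ 2 * w ^ 4 - 41 * n * c * w ^ 2 * e ^ 2 +
        200 * (n : ℤ) ^ 2 * e ^ 4 + 512 * k) := by
      rw [hc] at h
      linear_combination h
    linarith
  · have hloc := Pool.Agent.U115.GE.lsol_of_qs hd.1 (hd.2.2 2)
    obtain ⟨w, e, N, k, hwe, h⟩ := int_sol hloc
    refine ⟨fun hn2 => ?_, fun hn2 => ?_⟩
    · have hd2 : d % 2 = 1 := by
        by_contra h2
        have h3 := hloc.dvdB hd.1 (show ((2 : ℕ) : ℤ) ∣ d by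
          refine Int.dvd_of_emod_eq_zero ?_
          push_cast
          omega)
        obtain ⟨z, hz⟩ := h3
        obtain ⟨nn, hnn⟩ := sq8 (show (n : ℤ) % 2 = 1 by omega)
        rw [hnn] at hz
        push_cast at hz
        omega
      have h7 : d % 8 = 1 ∨ (d + (n : ℤ)) % 8 = 0 ∨ ((n : ℤ) % 8 = 7 ∧ d % 8 = 5) := by
        refine part2odd (n := (n : ℤ)) (w := w) (e := e) (N := N) (k := k) (by omega) hd2 hwe ?_
        rw [h]; ring
      omega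
    · obtain ⟨m, hm⟩ : ∃ m : ℤ, (n : ℤ) = 2 * m := ⟨(n : ℤ) / 2, by omega⟩
      have hnsq : Squarefree (n : ℤ) := Int.squarefree_natCast.2 hn
      have hm1 := hodd _ hnsq m hm
      by_cases hd2 : d % 2 = 1
      · left
        refine part2even (m := m) (w := w) (e := e) (N := N) (k := k) hm1 hd2 hwe ?_
        rw [h, hm]; ring
      · right
        obtain ⟨c, hc⟩ : ∃ c, d = 2 * c := ⟨d / 2, by omega⟩
        have hc1 := hodd d hd.1 c hc
        refine ⟨c, hc, ?_⟩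
        have h5 : (c + m) % 8 = 0 := by
          refine part2two (w := w) (e := e) (N := N) (k := k) hm1 hc1 hwe ?_
          have h6 : 2 * (c * N ^ 2) = 2 * (2 * ((c * w ^ 2 + m * e ^ 2) *
              (c * w ^ 2 + m * e ^ 2 + 80 * m * e ^ 2)) + 512 * k) := by
            rw [hc, hm] at h
            linear_combination h
          linarith
        omega

end Pool.Agent.U301.XM
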